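import Mathlib

set_option autoImplicit false

/-!
# Nordhaus-Gaddum total domination: complements of disjoint copies of a 4-regular graph

`copies k` is the disjoint union of `k` copies of the bipartite incidence graph of points and
complements of lines of the Fano plane (the bipartite complement of the Heawood graph). Its total
domination number is at least `6 k`.
-/

namespace Pool.Agent.H205R2.TotalDomNG

/-- `S` is a total dominating set of `G`: every vertex is adjacent to some vertex of `S`. -/
def IsTotalDominating {V : Type} (G : SimpleGraph V) (S : Finset V) : Prop :=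
  ∀ v : V, ∃ u ∈ S, G.Adj v u

/-- The total domination number: the least size of a total dominating set (of a finite graph
without isolated vertices). -/
noncomputable def totalDomNum {V : Type} (G : SimpleGraph V) : ℕ :=
  sInf {k : ℕ | ∃ S : Finset V, IsTotalDominating G S ∧ S.card = k}

open Classical in
/-- The minimum degree of a finite graph. -/
noncomputable def minDeg {V : Type} [Fintype V] (G : SimpleGraph V) : ℕ := G.minDegree

/-- `δ*(G)`: the smaller of the minimum degrees of `G` and of its complement. -/
noncomputable def deltaStar {V : Type} [Fintype V] (G : SimpleGraph V) : ℕ :=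
  min (minDeg G) (minDeg Gᶜ)

/-- Block membership: complement of the difference set `{1,2,4}` modulo 7. -/
def D (i : Fin 7) : Bool := i = 0 || i = 3 || i = 5 || i = 6

/-- Adjacency of the bipartite incidence graph (points `false`, blocks `true`). -/
def base (p q : Bool × Fin 7) : Bool :=
  (p.1 != q.1) && (if p.1 then D (p.2 - q.2) else D (q.2 - p.2))

lemma base_symm : ∀ p q : Bool × Fin 7, base p q = base q p := by decide

lemma base_irrefl : ∀ p : Bool × Fin 7, base p p = false := by decide

lemma base_card : ∀ p : Bool × Fin 7, (Finset.univ.filter (fun q => base p q = true)).card = 4 := by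
  decide

lemma base_side : ∀ p q : Bool × Fin 7, base p q = true → q.1 = !p.1 := by decide

lemma base_avoid : ∀ (s : Bool) (i j : Fin 7), ∃ l : Fin 7,
    base (s, l) (!s, i) = false ∧ base (s, l) (!s, j) = false := by decide

/-- `k` disjoint copies of the incidence graph. -/
def copies (k : ℕ) : SimpleGraph (Fin k × Bool × Fin 7) where
  Adj x y := x.1 = y.1 ∧ base x.2 y.2 = true
  symm := by
    constructor
    rintro x y ⟨h1, h2⟩
    exact ⟨h1.symm, by rw [base_symm]; exact h2⟩
  loopless := by
    constructor
    rintro x ⟨_, h2⟩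
    rw [base_irrefl] at h2
    exact Bool.noConfusion h2

lemma copies_degree (k : ℕ) (x : Fin k × Bool × Fin 7) [Fintype ((copies k).neighborSet x)] :
    (copies k).degree x = 4 := by
  classical
  rw [← base_card x.2, ← SimpleGraph.card_neighborFinset_eq_degree]
  have h : (copies k).neighborFinset x =
      (Finset.univ.filter (fun q => base x.2 q = true)).image (fun q => (x.1, q)) := by
    ext y
    rw [SimpleGraph.mem_neighborFinset]
    simp only [copies, Finset.mem_image, Finset.mem_filter, Finset.mem_univ, true_and]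
    constructor
    · rintro ⟨h1, h2⟩
      exact ⟨y.2, h2, by rw [h1]⟩
    · rintro ⟨q, hq, rfl⟩
      exact ⟨rfl, hq⟩
  rw [h, Finset.card_image_of_injective]
  intro a b hab
  simpa using hab

lemma card_V (k : ℕ) : Fintype.card (Fin k × Bool × Fin 7) = 14 * k := by
  simp [Fintype.card_prod]
  ring

lemma le_minDeg {V : Type} [Fintype V] [Nonempty V] (G : SimpleGraph V) (m : ℕ)
    (h : ∀ (v : V) [Fintype (G.neighborSet v)], m ≤ G.degree v) : m ≤ minDeg G := by
  classical
  unfold minDeg
  apply SimpleGraph.le_minDegree_of_forall_le_degree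
  intro v
  exact h v

lemma deltaStar_compl (k : ℕ) (hk : 2 ≤ k) : deltaStar (copies k)ᶜ = 4 := by
  classical
  have hne : Nonempty (Fin k × Bool × Fin 7) := ⟨(⟨0, by omega⟩, true, 0)⟩
  have h1 : minDeg (copies k) = 4 := by
    unfold minDeg
    apply le_antisymm
    · obtain ⟨x⟩ := hne
      exact (SimpleGraph.minDegree_le_degree _ x).trans (copies_degree k x).le
    · apply SimpleGraph.le_minDegree_of_forall_le_degree
      intro x
      exact (copies_degree k x).ge
  have h2 : 4 ≤ minDeg (copies k)ᶜ := by
    apply le_minDeg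
    intro x _
    rw [SimpleGraph.degree_compl, copies_degree, card_V]
    omega
  unfold deltaStar
  rw [compl_compl, h1]
  exact min_eq_right h2

lemma compl_connected (k : ℕ) (hk : 2 ≤ k) : ((copies k)ᶜ).Connected := by
  have hadj : ∀ x y : Fin k × Bool × Fin 7, x.1 ≠ y.1 → (copies k)ᶜ.Adj x y := by
    intro x y h
    rw [SimpleGraph.compl_adj]
    exact ⟨fun e => h (by rw [e]), fun e => h e.1⟩
  have : Nonempty (Fin k × Bool × Fin 7) := ⟨(⟨0, by omega⟩, true, 0)⟩
  refine SimpleGraph.Connected.mk ?_
  intro x y
  by_cases h : x.1 = y.1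
  · obtain ⟨a, ha⟩ : ∃ a : Fin k, a ≠ x.1 := by
      by_cases h0 : x.1.val = 0
      · refine ⟨⟨1, by omega⟩, ?_⟩
        intro e
        rw [← e] at h0
        simp at h0
      · refine ⟨⟨0, by omega⟩, ?_⟩
        intro e
        rw [← e] at h0
        simp at h0
    have h1 : (copies k)ᶜ.Adj x (a, true, 0) := hadj _ _ (Ne.symm ha)
    have h2 : (copies k)ᶜ.Adj (a, true, 0) y := hadj _ _ (by rw [← h]; exact ha)
    exact h1.reachable.trans h2.reachable
  · exact (hadj x y h).reachable

/-- Each side of each copy contains at least three vertices of a total dominating set. -/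
lemma three_le (k : ℕ) (S : Finset (Fin k × Bool × Fin 7)) (hS : IsTotalDominating (copies k) S)
    (a : Fin k) (s : Bool) : 3 ≤ (S.filter (fun x => x.1 = a ∧ x.2.1 = s)).card := by
  classical
  by_contra hlt
  push Not at hlt
  have hle : (S.filter (fun x => x.1 = a ∧ x.2.1 = s)).card ≤ 2 := by omega
  obtain ⟨i, j, hij⟩ : ∃ i j : Fin 7, ∀ x ∈ S.filter (fun x => x.1 = a ∧ x.2.1 = s),
      x.2.2 = i ∨ x.2.2 = j := by
    rcases Nat.lt_or_ge (S.filter (fun x => x.1 = a ∧ x.2.1 = s)).card 2 with h | h
    · have h1 : (S.filter (fun x => x.1 = a ∧ x.2.1 = s)).card ≤ 1 := by omega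
      have : Nonempty (Fin k × Bool × Fin 7) := ⟨(a, s, 0)⟩
      rw [Finset.card_le_one_iff_subset_singleton] at h1
      obtain ⟨z, hz⟩ := h1
      refine ⟨z.2.2, z.2.2, fun x hx => ?_⟩
      have := Finset.mem_singleton.1 (hz hx)
      left
      rw [this]
    · have h2 : (S.filter (fun x => x.1 = a ∧ x.2.1 = s)).card = 2 := by omega
      obtain ⟨z, w, _, hzw⟩ := Finset.card_eq_two.1 h2
      refine ⟨z.2.2, w.2.2, fun x hx => ?_⟩
      rw [hzw] at hx
      rcases Finset.mem_insert.1 hx with h | h
      · left; rw [h]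
      · right; rw [Finset.mem_singleton.1 h]
  obtain ⟨l, hl1, hl2⟩ := base_avoid (!s) i j
  obtain ⟨u, hu, hadj⟩ := hS (a, !s, l)
  obtain ⟨ha, hb⟩ := hadj
  have hside := base_side _ _ hb
  simp only [Bool.not_not] at hside hl1 hl2
  have hmem : u ∈ S.filter (fun x => x.1 = a ∧ x.2.1 = s) := by
    rw [Finset.mem_filter]
    exact ⟨hu, ha.symm, hside⟩
  have hu2 : u.2 = (s, u.2.2) := by
    rw [← hside]
  rcases hij u hmem with h | h
  · rw [hu2, h] at hb
    rw [hl1] at hb
    exact Bool.noConfusion hb
  · rw [hu2, h] at hb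
    rw [hl2] at hb
    exact Bool.noConfusion hb

lemma six_le (k : ℕ) (S : Finset (Fin k × Bool × Fin 7)) (hS : IsTotalDominating (copies k) S) :
    6 * k ≤ S.card := by
  classical
  have h := Finset.card_eq_sum_card_fiberwise (s := S) (t := (Finset.univ : Finset (Fin k × Bool)))
    (f := fun x => (x.1, x.2.1)) (fun x _ => Finset.mem_coe.2 (Finset.mem_univ _))
  rw [h]
  have h2 : ∀ b ∈ (Finset.univ : Finset (Fin k × Bool)),
      3 ≤ (S.filter (fun x => (x.1, x.2.1) = b)).card := by
    intro b _
    have := three_le k S hS b.1 b.2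
    have e : S.filter (fun x => (x.1, x.2.1) = b) = S.filter (fun x => x.1 = b.1 ∧ x.2.1 = b.2) := by
      apply Finset.filter_congr
      intro x _
      exact Prod.ext_iff
    rw [e]
    exact this
  have h3 := Finset.card_nsmul_le_sum _ _ _ h2
  have h4 : (Finset.univ : Finset (Fin k × Bool)).card = 2 * k := by
    rw [Finset.card_univ]
    simp [Fintype.card_prod]
    ring
  rw [h4] at h3
  simp only [smul_eq_mul] at h3
  omega

/-- The minimum in the definition of the total domination number is attained when there is a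
total dominating set. -/
lemma exists_min {V : Type} (G : SimpleGraph V) (h : ∃ S : Finset V, IsTotalDominating G S) :
    ∃ S : Finset V, IsTotalDominating G S ∧ S.card = totalDomNum G := by
  obtain ⟨S, hS⟩ := h
  exact Nat.sInf_mem (s := {k : ℕ | ∃ S : Finset V, IsTotalDominating G S ∧ S.card = k})
    ⟨S.card, S, hS, rfl⟩

lemma totalDomNum_copies (k : ℕ) : 6 * k ≤ totalDomNum (copies k) := by
  classical
  obtain ⟨S, hS, hc⟩ := exists_min (copies k) ⟨Finset.univ, by
    intro v
    have h := copies_degree k v
    have hpos : 0 < ((copies k).neighborFinset v).card := by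
      rw [SimpleGraph.card_neighborFinset_eq_degree, h]; norm_num
    obtain ⟨u, hu⟩ := Finset.card_pos.1 hpos
    exact ⟨u, Finset.mem_univ _, by rwa [SimpleGraph.mem_neighborFinset] at hu⟩⟩
  rw [← hc]
  exact six_le k S hS

lemma two_le_totalDomNum {V : Type} [Nonempty V] (G : SimpleGraph V)
    (h : ∃ S : Finset V, IsTotalDominating G S) : 2 ≤ totalDomNum G := by
  classical
  obtain ⟨S, hS, hc⟩ := exists_min G h
  rw [← hc]
  by_contra hlt
  have h1 : S.card ≤ 1 := by omega
  obtain ⟨v⟩ := (inferInstance : Nonempty V)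
  obtain ⟨u, hu, _⟩ := hS v
  obtain ⟨w, hw, hadj⟩ := hS u
  have := Finset.card_le_one.1 h1 u hu w hw
  rw [this] at hadj
  exact G.loopless.irrefl _ hadj

lemma totalDomNum_compl (k : ℕ) (hk : 2 ≤ k) : 2 ≤ totalDomNum (copies k)ᶜ := by
  classical
  have : Nonempty (Fin k × Bool × Fin 7) := ⟨(⟨0, by omega⟩, true, 0)⟩
  apply two_le_totalDomNum
  refine ⟨Finset.univ, ?_⟩
  intro v
  obtain ⟨a, ha⟩ : ∃ a : Fin k, a ≠ v.1 := by
    by_cases h0 : v.1.val = 0
    · refine ⟨⟨1, by omega⟩, ?_⟩
      intro e
      rw [← e] at h0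
      simp at h0
    · refine ⟨⟨0, by omega⟩, ?_⟩
      intro e
      rw [← e] at h0
      simp at h0
  refine ⟨(a, true, 0), Finset.mem_univ _, ?_⟩
  rw [SimpleGraph.compl_adj]
  exact ⟨fun e => ha (by rw [e]), fun e => ha e.1.symm⟩

end Pool.Agent.H205R2.TotalDomNG
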